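import Mathlib
import Pool.Agent.Work.MP_86e2e0_an.Defs
import Pool.Agent.Work.MP_86e2e0_an.Final

open scoped MultiplierAlgebra
open Pool.Agent.Work.MP_86e2e0_an

namespace Pool.Agent.Results.MP_86e2e0_an.SimpleNonmeagre

/-- There is a simple, separable, nonunital C*-algebra `A` (with a good approximate identity) whose
multiplier algebra has a proper, norm-closed, nonmeagre two-sided ideal containing `A`. -/
theorem result : ∃ (A : Type) (_ : NonUnitalCStarAlgebra A), IsSimpleCStar A ∧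
    TopologicalSpace.SeparableSpace A ∧ (¬ ∃ u : A, ∀ a : A, u * a = a ∧ a * u = a) ∧
    (∃ e : ℕ → A, IsGood e) ∧
    ∃ I : TwoSidedIdeal 𝓜(ℂ, A), IsClosed (I : Set 𝓜(ℂ, A)) ∧ (∀ a : A, (a : 𝓜(ℂ, A)) ∈ I) ∧
      I ≠ ⊤ ∧ IsNonmeagre I :=
  main

end Pool.Agent.Results.MP_86e2e0_an.SimpleNonmeagre
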